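import Pool.Agent.THV.St

/-!
# TV, module AFX: attracting fixed points
-/

set_option autoImplicit false

namespace Pool.Agent.THV

open Stream'

namespace AFX

variable {A : Type}

theorem rep_pow {g : Equiv.Perm (Stream' A)} {τ z : List A} (h : Rep g τ (τ ++ z)) (k : ℕ) :
    ∀ y : Stream' A, (g ^ k) (τ ++ₛ y) = (τ ++ (List.replicate k z).flatten) ++ₛ y := by
  induction k with
  | zero =>
    intro y
    simp
  | succ k ih =>
    intro y
    rw [pow_succ, Equiv.Perm.mul_apply, h y, append_append_stream, ih (z ++ₛ y),
      ← append_append_stream, List.append_assoc, List.replicate_succ', List.flatten_append]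
    simp

theorem cyc (z : List A) (hz : z ≠ []) (k : ℕ) :
    cycle z hz = (List.replicate k z).flatten ++ₛ cycle z hz := by
  induction k with
  | zero => simp
  | succ k ih =>
    have h : (List.replicate (k + 1) z).flatten ++ₛ cycle z hz =
        z ++ₛ ((List.replicate k z).flatten ++ₛ cycle z hz) := by
      rw [List.replicate_succ, List.flatten_cons, append_append_stream]
    rw [h, ← ih]
    exact cycle_eq z hz

end AFX

open AFX in
theorem t_AFX (hE : s_EXP) : s_AFX := by
  intro A _ g τ z hz h
  have e1 : z ++ₛ cycle z hz = cycle z hz := (cycle_eq z hz).symm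
  refine ⟨τ ++ₛ cycle z hz, ⟨_, rfl⟩, ?_, ?_, ?_⟩
  · rw [h, append_append_stream, e1]
  · rw [(hE A).1 g τ (τ ++ z) (cycle z hz) h, List.length_append]
    have := List.length_pos_iff.2 hz
    push_cast
    omega
  · intro n
    refine ⟨n, fun k hk y => ?_⟩
    have hl : n ≤ (τ ++ (List.replicate k z).flatten).length := by
      have h1 := List.length_pos_iff.2 hz
      have h2 : ((List.replicate k z).flatten).length = k * z.length := by simp
      rw [List.length_append, h2]
      have h3 : k * 1 ≤ k * z.length := Nat.mul_le_mul_left k h1
      omega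
    rw [rep_pow h k y, cyc z hz k, ← append_append_stream, take_append_of_le_length (h := hl),
      take_append_of_le_length (h := hl)]

end Pool.Agent.THV
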