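import Pool.Agent.THV.St

/-!
# AIN: invariance of the attracting periodic points
-/

set_option autoImplicit false

namespace Pool.Agent.THV

namespace AIN

variable {A : Type}

/-- powers of an element of `V` -/
theorem isV_pow (hGRP : s_GRP) {g : Equiv.Perm (Stream' A)} (hg : IsV g) (q : ℕ) :
    IsV (g ^ q) := by
  induction q with
  | zero => simpa using (hGRP A).1
  | succ q ih => rw [pow_succ]; exact (hGRP A).2.1 _ _ ih hg

/-- conjugation and the exponent -/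
theorem ex_conj [Nontrivial A] (hGRP : s_GRP) (hEXP : s_EXP) {g h : Equiv.Perm (Stream' A)}
    (hg : IsV g) (hh : IsV h) (q : ℕ) (x : Stream' A) (hx : (g ^ q) x = x) :
    ex ((h * g * h⁻¹) ^ q) (h x) = ex (g ^ q) x := by
  obtain ⟨-, e2, -, -, -, e6⟩ := hEXP A
  have hgq := isV_pow hGRP hg q
  have hi : h⁻¹ (h x) = x := by simp
  rw [conj_pow, e2 (h * g ^ q) h⁻¹ (h x) ((hGRP A).2.1 _ _ hh hgq) ((hGRP A).2.2 _ hh), hi,
    e2 h (g ^ q) x hh hgq, hx, e6 h x hh]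
  ring

/-- conjugation and the fixed points -/
theorem fix_conj (g h : Equiv.Perm (Stream' A)) (q : ℕ) (x : Stream' A) :
    ((h * g * h⁻¹) ^ q) (h x) = h x ↔ (g ^ q) x = x := by
  rw [conj_pow]
  simp [Equiv.Perm.mul_apply]

/-- (2) -/
theorem attP_conj [Nontrivial A] (hGRP : s_GRP) (hEXP : s_EXP) {g h : Equiv.Perm (Stream' A)}
    (hg : IsV g) (hh : IsV h) (x : Stream' A) :
    AttP (h * g * h⁻¹) (h x) ↔ AttP g x := by
  constructor
  · rintro ⟨q, hq, hfix, hex⟩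
    have hfix' := (fix_conj g h q x).1 hfix
    exact ⟨q, hq, hfix', by rwa [ex_conj hGRP hEXP hg hh q x hfix'] at hex⟩
  · rintro ⟨q, hq, hfix, hex⟩
    exact ⟨q, hq, (fix_conj g h q x).2 hfix, by rwa [ex_conj hGRP hEXP hg hh q x hfix]⟩

/-- (3) -/
theorem attP_pow [Nontrivial A] (hGRP : s_GRP) (hEXP : s_EXP) {g : Equiv.Perm (Stream' A)}
    (hg : IsV g) (n : ℕ) (x : Stream' A) (hn : 0 < n) : AttP (g ^ n) x ↔ AttP g x := by
  constructor
  · rintro ⟨q, hq, hfix, hex⟩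
    refine ⟨n * q, Nat.mul_pos hn hq, ?_, ?_⟩
    · rwa [pow_mul]
    · rwa [pow_mul]
  · rintro ⟨q, hq, hfix, hex⟩
    have hc : (g ^ n) ^ q = (g ^ q) ^ n := by rw [← pow_mul, ← pow_mul, Nat.mul_comm]
    refine ⟨q, hq, ?_, ?_⟩
    · rw [hc]
      exact Function.IsFixedPt.perm_pow hfix n
    · rw [hc, (hEXP A).2.2.2.1 (g ^ q) x n (isV_pow hGRP hg q) hfix]
      exact mul_pos (by exact_mod_cast hn) hex

end AIN

theorem t_AIN (hGRP : s_GRP) (hEXP : s_EXP) : s_AIN := by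
  intro A _ g hg
  refine ⟨?_, ?_, ?_⟩
  · intro h x hh hc ha
    have h1 : h * g * h⁻¹ = g := by rw [hc, mul_inv_cancel_right]
    have h2 := (AIN.attP_conj hGRP hEXP hg hh x).2 ha
    rwa [h1] at h2
  · intro h x hh
    exact AIN.attP_conj hGRP hEXP hg hh x
  · intro n x hn
    exact AIN.attP_pow hGRP hEXP hg n x hn

end Pool.Agent.THV
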