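import Pool.Agent.THV.St

/-!
# TV, module GER: roots near finite invariant sets
-/

set_option autoImplicit false

namespace Pool.Agent.THV

open Stream'

namespace GER

theorem fix_pow {α : Type} (g : Equiv.Perm α) (Φ : Finset α) (h : ∀ ξ ∈ Φ, g ξ ∈ Φ) :
    ∀ ξ ∈ Φ, (g ^ (Φ.card).factorial) ξ = ξ := by
  classical
  obtain ⟨f, hf⟩ : ∃ f : Φ → Φ, ∀ ξ : Φ, ((f ξ : Φ) : α) = g ξ :=
    ⟨fun ξ => ⟨g ξ, h ξ ξ.2⟩, fun _ => rfl⟩
  have hinj : Function.Injective f := by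
    intro a b hab
    apply Subtype.ext
    apply g.injective
    rw [← hf, ← hf, hab]
  have hbij : Function.Bijective f := Finite.injective_iff_bijective.1 hinj
  obtain ⟨σ, hσ⟩ : ∃ σ : Equiv.Perm Φ, ∀ ξ, σ ξ = f ξ := ⟨Equiv.ofBijective f hbij, fun _ => rfl⟩
  have hpow : ∀ (k : ℕ) (ξ : Φ), (((σ ^ k) ξ : Φ) : α) = (g ^ k) ξ := by
    intro k
    induction k with
    | zero => intro ξ; rfl
    | succ k ih =>
      intro ξ
      rw [pow_succ, pow_succ, Equiv.Perm.mul_apply, Equiv.Perm.mul_apply, ih, hσ, hf]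
  intro ξ hξ
  have h1 : σ ^ (Φ.card).factorial = 1 := by
    have h2 : Fintype.card (Equiv.Perm Φ) = (Φ.card).factorial := by
      rw [Fintype.card_perm, Fintype.card_coe]
    rw [← h2]
    exact pow_card_eq_one
  have h2 := hpow (Φ.card).factorial ⟨ξ, hξ⟩
  rw [h1] at h2
  exact h2.symm

theorem isV_pow {A : Type} (hGRP : s_GRP) (g : Equiv.Perm (Stream' A)) (h : IsV g) (k : ℕ) :
    IsV (g ^ k) := by
  induction k with
  | zero => exact (hGRP A).1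
  | succ k ih =>
    rw [pow_succ]
    exact (hGRP A).2.1 _ _ ih h

theorem fix_of_fix {α : Type} (g : Equiv.Perm α) (ξ : α) (h : g ξ = ξ) (k : ℕ) :
    (g ^ k) ξ = ξ := by
  induction k with
  | zero => rfl
  | succ k ih => rw [pow_succ, Equiv.Perm.mul_apply, h, ih]

theorem bezout {p Q : ℕ} (hQ : 0 < Q) (h : Nat.Coprime p Q) (hp : 0 < p) :
    ∃ a b : ℕ, p * a = 1 + Q * b := by
  have h1 := Nat.ModEq.pow_totient h
  have h2 : 0 < Nat.totient Q := Nat.totient_pos.2 hQ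
  have h3 : 1 ≤ p ^ Nat.totient Q := Nat.one_le_pow _ _ hp
  obtain ⟨b, hb⟩ := (Nat.modEq_iff_dvd' h3).1 h1.symm
  refine ⟨p ^ (Nat.totient Q - 1), b, ?_⟩
  rw [← pow_succ', Nat.sub_add_cancel h2, ← hb]
  omega

end GER

open GER in
/-- GER -/
theorem t_GER (_hREB : s_REB) (hGRP : s_GRP) (hEXP : s_EXP) : s_GER := by
  intro A _ x y hx hy p Φ hp hcard hΦ hxy ξ hξ
  obtain ⟨-, -, -, hE4, hE5, -⟩ := hEXP A
  obtain ⟨Q, hQ⟩ : ∃ Q, Q = (Φ.card).factorial := ⟨_, rfl⟩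
  have hxQ : (x ^ Q) ξ = ξ := by
    rw [hQ]
    exact fix_pow x Φ (fun ξ hξ => (hΦ ξ hξ).1) ξ hξ
  have hyQ : (y ^ Q) ξ = ξ := by
    rw [hQ]
    exact fix_pow y Φ (fun ξ hξ => (hΦ ξ hξ).2) ξ hξ
  have hVx : IsV (x ^ Q) := isV_pow hGRP x hx Q
  have hVy : IsV (y ^ Q) := isV_pow hGRP y hy Q
  have hex : ex (x ^ Q) ξ = ex (y ^ Q) ξ := by
    have h1 := hE4 (x ^ Q) ξ p hVx hxQ
    have h2 := hE4 (y ^ Q) ξ p hVy hyQ
    have h3 : (x ^ Q) ^ p = (y ^ Q) ^ p := by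
      rw [← pow_mul, ← pow_mul, mul_comm Q p, pow_mul, pow_mul, hxy]
    rw [h3] at h1
    have h4 : (p : ℤ) * ex (x ^ Q) ξ = p * ex (y ^ Q) ξ := by rw [← h1, ← h2]
    exact mul_left_cancel₀ (by exact_mod_cast hp.ne_zero) h4
  have hcop : Nat.Coprime p Q := by
    rw [Nat.Prime.coprime_iff_not_dvd hp, hQ, Nat.Prime.dvd_factorial hp]
    omega
  obtain ⟨a, b, hab⟩ := bezout (by rw [hQ]; exact Nat.factorial_pos _) hcop hp.pos
  have hexb : ex ((x ^ Q) ^ b) ξ = ex ((y ^ Q) ^ b) ξ := by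
    rw [hE4 (x ^ Q) ξ b hVx hxQ, hE4 (y ^ Q) ξ b hVy hyQ, hex]
  obtain ⟨n, m, h1, h2⟩ := hE5 ((x ^ Q) ^ b) ((y ^ Q) ^ b) ξ (isV_pow hGRP _ hVx b)
    (isV_pow hGRP _ hVy b) (fix_of_fix _ ξ hxQ b) (fix_of_fix _ ξ hyQ b) hexb
  refine ⟨m, fun w hw => ?_⟩
  have hw' : w = ξ.take m ++ₛ w.drop m := by
    rw [← hw, Stream'.append_take_drop]
  have e1 := h1 (w.drop m)
  have e2 := h2 (w.drop m)
  rw [← hw'] at e1 e2
  have k1 : x w = ((x ^ p) ^ a) (ξ.take n ++ₛ w.drop m) := by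
    rw [← pow_mul, hab, pow_add, pow_one, Equiv.Perm.mul_apply, pow_mul, e1]
  have k2 : y w = ((y ^ p) ^ a) (ξ.take n ++ₛ w.drop m) := by
    rw [← pow_mul, hab, pow_add, pow_one, Equiv.Perm.mul_apply, pow_mul, e2]
  rw [k1, k2, hxy]

end Pool.Agent.THV
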