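import Pool.Agent.THV.St

/-!
# TV, module GRP: the Higman-Thompson permutations form a group (helper37)
-/

set_option autoImplicit false

namespace Pool.Agent.THV

open Stream'

namespace GRP

variable {A : Type}

/-- two representations of an infinite word -/
theorem cmp : ∀ (a b : List A) (y z : Stream' A), a ++ₛ y = b ++ₛ z →
    (∃ w, a = b ++ w ∧ z = w ++ₛ y) ∨ (∃ w, b = a ++ w ∧ y = w ++ₛ z)
  | [], b, y, z, h => Or.inr ⟨b, rfl, h⟩
  | List.cons x a, [], y, z, h => Or.inl ⟨List.cons x a, rfl, h.symm⟩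
  | List.cons x a, List.cons x' b, y, z, h => by
    rw [cons_append_stream, cons_append_stream] at h
    obtain ⟨h1, h2⟩ := Stream'.cons_injective2 h
    subst h1
    rcases cmp a b y z h2 with ⟨w, hw, hz⟩ | ⟨w, hw, hz⟩
    · exact Or.inl ⟨w, by rw [hw, List.cons_append], hz⟩
    · exact Or.inr ⟨w, by rw [hw, List.cons_append], hz⟩

theorem one : IsV (1 : Equiv.Perm (Stream' A)) := by
  refine ⟨{([], [])}, Set.finite_singleton _, fun x => ⟨([], []), rfl, ⟨x, rfl⟩, fun y => rfl⟩⟩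

theorem inv (g : Equiv.Perm (Stream' A)) (hg : IsV g) : IsV g⁻¹ := by
  obtain ⟨T, hT, h⟩ := hg
  refine ⟨Prod.swap '' T, hT.image _, fun x => ?_⟩
  obtain ⟨p, hp, ⟨y, hy⟩, hr⟩ := h (g⁻¹ x)
  refine ⟨p.swap, ⟨p, hp, rfl⟩, ⟨y, ?_⟩, fun z => ?_⟩
  · have h1 : g (g⁻¹ x) = x := g.apply_symm_apply x
    rw [← h1, hy]
    exact hr y
  · have h1 := hr z
    show g⁻¹ (p.2 ++ₛ z) = p.1 ++ₛ z
    rw [← h1]
    exact g.symm_apply_apply _

theorem mul (g h : Equiv.Perm (Stream' A)) (hg : IsV g) (hh : IsV h) : IsV (g * h) := by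
  obtain ⟨S, hS, hg⟩ := hg
  obtain ⟨T, hT, hh⟩ := hh
  refine ⟨(fun r : (List A × List A) × (List A × List A) =>
    (r.1.1 ++ r.2.1.drop r.1.2.length, r.2.2 ++ r.1.2.drop r.2.1.length)) '' (T ×ˢ S),
    (hT.prod hS).image _, fun x => ?_⟩
  obtain ⟨p, hp, ⟨y, hy⟩, hr⟩ := hh x
  obtain ⟨q, hq, ⟨z, hz⟩, hs⟩ := hg (h x)
  have h1 : h x = p.2 ++ₛ y := by
    rw [hy]
    exact hr y
  refine ⟨_, ⟨(p, q), ⟨hp, hq⟩, rfl⟩, ?_⟩
  rw [h1] at hz
  rcases cmp _ _ _ _ hz with ⟨w, hw, hw2⟩ | ⟨w, hw, hw2⟩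
  · -- `p.2 = q.1 ++ w`
    have e1 : q.1.drop p.2.length = [] := by
      rw [hw]
      exact List.drop_eq_nil_of_le (by rw [List.length_append]; omega)
    have e2 : p.2.drop q.1.length = w := by
      rw [hw, List.drop_left]
    simp only [e1, e2, List.append_nil]
    refine ⟨⟨y, hy⟩, fun t => ?_⟩
    show g (h (p.1 ++ₛ t)) = _
    rw [hr t, hw, append_append_stream, hs, append_append_stream]
  · -- `q.1 = p.2 ++ w`
    have e1 : q.1.drop p.2.length = w := by
      rw [hw, List.drop_left]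
    have e2 : p.2.drop q.1.length = [] := by
      rw [hw]
      exact List.drop_eq_nil_of_le (by rw [List.length_append]; omega)
    simp only [e1, e2, List.append_nil]
    refine ⟨⟨z, ?_⟩, fun t => ?_⟩
    · rw [append_append_stream, ← hw2]
      exact hy
    · show g (h ((p.1 ++ w) ++ₛ t)) = _
      rw [append_append_stream, hr, ← append_append_stream, ← hw, hs]

end GRP

theorem t_GRP : s_GRP := fun _ => ⟨GRP.one, GRP.mul, GRP.inv⟩

end Pool.Agent.THV
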