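import Pool.Agent.THV.St

/-!
# LCP: a point which is not attracting periodic has a prefix on which all negative powers are defined
-/

set_option autoImplicit false

namespace Pool.Agent.THV

open Stream'

namespace LCP

theorem isV_pow {A : Type} (hGRP : s_GRP) {g : Equiv.Perm (Stream' A)} (hg : IsV g) :
    ∀ k : ℕ, IsV (g ^ k)
  | 0 => by
    rw [pow_zero]
    exact (hGRP A).1
  | k + 1 => by
    rw [pow_succ]
    exact (hGRP A).2.1 _ _ (isV_pow hGRP hg k) hg

/-- the pigeonhole principle -/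
theorem exists_fiber {β : Type} (S : Set ℕ) (hS : S.Infinite) (f : ℕ → β) (T : Set β)
    (hT : T.Finite) (h : ∀ n ∈ S, f n ∈ T) : ∃ b : β, {n | n ∈ S ∧ f n = b}.Infinite := by
  by_contra hc
  have hc' : ∀ b : β, {n | n ∈ S ∧ f n = b}.Finite := fun b =>
    Set.not_infinite.1 fun hb => hc ⟨b, hb⟩
  refine hS ((hT.biUnion fun b _ => hc' b).subset fun n hn => ?_)
  exact Set.mem_biUnion (h n hn) ⟨hn, rfl⟩

theorem finite_small {S : Set ℕ} {j : ℕ → ℕ} (hj : Set.InjOn j S) (B : ℕ) :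
    (S ∩ {n | j n < B}).Finite := by
  refine Set.Finite.of_finite_image (f := j) ?_ (hj.mono Set.inter_subset_left)
  refine (Set.finite_lt_nat B).subset ?_
  rintro _ ⟨n, ⟨_, hn⟩, rfl⟩
  exact hn

theorem exists_large {S : Set ℕ} (hS : S.Infinite) {j : ℕ → ℕ} (hj : Set.InjOn j S) (N B : ℕ) :
    ∃ n ∈ S, N ≤ n ∧ B ≤ j n := by
  have h1 : (S ∩ {n | n < N}).Finite := (Set.finite_lt_nat N).subset Set.inter_subset_right
  obtain ⟨n, hn, hn'⟩ := (hS.diff (h1.union (finite_small hj B))).nonempty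
  refine ⟨n, hn, ?_, ?_⟩
  · by_contra hc
    exact hn' (Or.inl ⟨hn, not_le.1 hc⟩)
  · by_contra hc
    exact hn' (Or.inr ⟨hn, not_le.1 hc⟩)

end LCP

open LCP in
theorem t_LCP (hREB : s_REB) (hDOM : s_DOM) (hGRP : s_GRP) (_hEXP : s_EXP) (hRCL : s_RCL)
    (hAFX : s_AFX) (hAIN : s_AIN) : s_LCP := by
  intro A _ _ g hg w hw
  by_contra hcon
  have hcon' : ∀ n, ¬RC g⁻¹ (w.take n) := fun n hn => hcon ⟨n, hn⟩
  have hgi : IsV g⁻¹ := (hGRP A).2.2 g hg
  obtain ⟨-, -, -, -, -, hR6⟩ := hRCL A g⁻¹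
  obtain ⟨⟨L, hL⟩, -, -⟩ := hDOM A g⁻¹ hgi
  have h1 : ∀ n, ∃ (j : ℕ) (e : List A), Rep (g⁻¹ ^ j) (w.take n) e ∧ (¬∃ v, Rep g⁻¹ e v) ∧
      ∀ i ≤ j, ∃ v, Rep (g⁻¹ ^ i) (w.take n) v := fun n => hR6 _ (hcon' n)
  choose j e hje hne _ using h1
  have hlen : ∀ n, (e n).length < L := fun n => by
    by_contra hc
    exact hne n (hL _ (not_lt.1 hc))
  obtain ⟨e0, hI⟩ := exists_fiber Set.univ Set.infinite_univ e {l | l.length < L}
    (List.finite_length_lt A L) (fun n _ => hlen n)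
  set I : Set ℕ := {n | n ∈ Set.univ ∧ e n = e0} with hIdef
  have hback : ∀ n ∈ I, Rep (g ^ j n) e0 (w.take n) := by
    intro n hn
    have k1 := hje n
    rw [hn.2, inv_pow] at k1
    have k2 := (hREB A (g ^ j n)⁻¹ 1).2.2.1 _ _ k1
    rwa [inv_inv] at k2
  have hjinj : Set.InjOn j I := by
    intro n hn n' hn' h
    have k1 := hback n hn
    have k2 := hback n' hn'
    rw [← h] at k2
    have k3 := (hREB A (g ^ j n) 1).2.2.2.1 _ _ _ k1 k2
    have k4 := congrArg List.length k3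
    rwa [length_take, length_take] at k4
  obtain ⟨n, hnI, -, -⟩ := exists_large hI hjinj 0 0
  obtain ⟨n', hn'I, hn', hjn'⟩ := exists_large hI hjinj (n + 1) (j n + 1)
  have hrep : ∀ m ∈ I, j n ≤ j m → Rep (g ^ (j m - j n)) (w.take n) (w.take m) := by
    intro m hm hjm
    have k1 := hback n hnI
    have k2 := hback m hm
    have e1 : j m = j n + (j m - j n) := by omega
    rw [e1] at k2
    exact (hREB A g 1).2.2.2.2.2.2.2.2.1 (j n) (j m - j n) e0 (w.take n) (w.take m) k1 k2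
  have hq : 0 < j n' - j n := by omega
  have hrepq := hrep n' hn'I (by omega)
  generalize hqdef : j n' - j n = q at hq hrepq
  have hsplit : w.take n' = w.take n ++ (w.drop n).take (n' - n) := by
    rw [← take_add]
    congr 1
    omega
  have hz : (w.drop n).take (n' - n) ≠ [] := by
    intro h
    have := congrArg List.length h
    rw [length_take] at this
    simp at this
    omega
  rw [hsplit] at hrepq
  obtain ⟨a, -, hga, hex, hK⟩ := hAFX A (g ^ q) (w.take n) _ hz hrepq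
  have hAtt : AttP g a := ⟨q, hq, hga, hex⟩
  have hI2 : {m | m ∈ I ∧ j n ≤ j m}.Infinite := by
    refine (hI.diff (finite_small hjinj (j n))).mono fun m hm => ⟨hm.1, ?_⟩
    by_contra hc
    exact hm.2 ⟨hm.1, not_le.1 hc⟩
  obtain ⟨s, hI3⟩ := exists_fiber _ hI2 (fun m => (j m - j n) % q) {s | s < q}
    (Set.finite_lt_nat q) (fun m _ => Nat.mod_lt _ hq)
  have hwa : (g ^ s) a = w := by
    refine take_theorem _ _ fun N => ?_
    obtain ⟨N', hN'⟩ := (hDOM A (g ^ s) (isV_pow hGRP hg s)).2.2 a N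
    obtain ⟨K, hK'⟩ := hK N'
    obtain ⟨m, hm, hmN, hmj⟩ := exists_large hI3 (hjinj.mono fun m hm => hm.1.1) N (j n + K * q)
    have hm2 := hrep m hm.1.1 hm.1.2 (w.drop m)
    have hκ : K ≤ (j m - j n) / q := (Nat.le_div_iff_mul_le hq).2 (by omega)
    have k2 := hN' _ (hK' _ hκ (w.drop m))
    have hms : (j m - j n) % q = s := hm.2
    rw [← Nat.mod_add_div (j m - j n) q, hms, pow_add, pow_mul] at hm2
    have k3 : (g ^ s) (((g ^ q) ^ ((j m - j n) / q)) (w.take n ++ₛ w.drop m)) = w := by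
      refine Eq.trans hm2 (append_take_drop m w)
    rw [k3] at k2
    exact k2.symm
  refine hw ?_
  rw [← hwa]
  exact (hAIN A g hg).1 (g ^ s) a (isV_pow hGRP hg s) (pow_mul_comm' g s) hAtt

end Pool.Agent.THV
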