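import Pool.Agent.THV.St

/-!
# TV, module PHI: a homomorphism from the centraliser of an element of infinite order to `ℤ`
-/

set_option autoImplicit false

namespace Pool.Agent.THV

namespace PHI

variable {A : Type}

theorem isV_pow (hGRP : s_GRP) {g : Equiv.Perm (Stream' A)} (hg : IsV g) (n : ℕ) :
    IsV (g ^ n) := by
  induction n with
  | zero =>
    rw [pow_zero]
    exact (hGRP A).1
  | succ n ih =>
    rw [pow_succ]
    exact (hGRP A).2.1 _ _ ih hg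

theorem sum_mul (hEXP : s_EXP) [Nontrivial A] {Φ : Finset (Stream' A)}
    {f f' : Equiv.Perm (Stream' A)} (hf : IsV f) (hf' : IsV f') (h : ∀ x ∈ Φ, f' x ∈ Φ) :
    ∑ x ∈ Φ, ex (f * f') x = ∑ x ∈ Φ, ex f x + ∑ x ∈ Φ, ex f' x := by
  classical
  have h1 : Φ.image f' = Φ := Finset.eq_of_subset_of_card_le
    (fun y hy => by
      obtain ⟨x, hx, rfl⟩ := Finset.mem_image.1 hy
      exact h x hx)
    (Finset.card_image_of_injective Φ f'.injective).ge
  have h2 : ∑ x ∈ Φ, ex f (f' x) = ∑ x ∈ Φ, ex f x := by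
    conv_rhs => rw [← h1]
    rw [Finset.sum_image (fun _ _ _ _ h => f'.injective h)]
  rw [← h2, ← Finset.sum_add_distrib]
  exact Finset.sum_congr rfl fun x _ => (hEXP A).2.1 f f' x hf hf'

theorem sum_pow (hGRP : s_GRP) (hEXP : s_EXP) [Nontrivial A] {Φ : Finset (Stream' A)}
    {h : Equiv.Perm (Stream' A)} (hh : IsV h) (hm : ∀ x ∈ Φ, h x ∈ Φ) (k : ℕ) :
    ∑ x ∈ Φ, ex (h ^ k) x = k * ∑ x ∈ Φ, ex h x := by
  induction k with
  | zero =>
    rw [pow_zero, Nat.cast_zero, zero_mul]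
    exact Finset.sum_eq_zero fun x _ => (hEXP A).2.2.1 x
  | succ k ih =>
    rw [pow_succ, sum_mul hEXP (isV_pow hGRP hh k) hh hm, ih]
    push_cast
    ring

theorem pos (hGRP : s_GRP) (hEXP : s_EXP) [Nontrivial A] {Φ : Finset (Stream' A)}
    {h : Equiv.Perm (Stream' A)} (hh : IsV h) (hm : ∀ x ∈ Φ, h x ∈ Φ)
    (hA : ∀ x ∈ Φ, AttP h x) (hne : Φ.Nonempty) : 0 < ∑ x ∈ Φ, ex h x := by
  classical
  have hA' : ∀ x : Stream' A, ∃ q : ℕ, 0 < q ∧
      (x ∈ Φ → (h ^ q) x = x ∧ 0 < ex (h ^ q) x) := by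
    intro x
    by_cases hx : x ∈ Φ
    · obtain ⟨q, h1, h2, h3⟩ := hA x hx
      exact ⟨q, h1, fun _ => ⟨h2, h3⟩⟩
    · exact ⟨1, one_pos, fun h => absurd h hx⟩
  choose q hq0 hq using hA'
  have hQ : 0 < ∏ x ∈ Φ, q x := Finset.prod_pos fun x _ => hq0 x
  have h1 : 0 < ∑ x ∈ Φ, ex (h ^ (∏ x ∈ Φ, q x)) x := by
    refine Finset.sum_pos (fun x hx => ?_) hne
    obtain ⟨c, hc⟩ := Finset.dvd_prod_of_mem q hx
    have hc0 : 0 < c := Nat.pos_of_ne_zero (by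
      rintro rfl
      rw [hc, mul_zero] at hQ
      exact lt_irrefl _ hQ)
    rw [hc, pow_mul, (hEXP A).2.2.2.1 _ x c (isV_pow hGRP hh _) (hq x hx).1]
    exact mul_pos (by exact_mod_cast hc0) (hq x hx).2
  rw [sum_pow hGRP hEXP hh hm] at h1
  have hQ' : (0 : ℤ) < ((∏ x ∈ Φ, q x : ℕ) : ℤ) := by exact_mod_cast hQ
  exact (mul_pos_iff_of_pos_left hQ').1 h1

end PHI

open PHI in
theorem t_PHI (hGRP : s_GRP) (hEXP : s_EXP) (hORD : s_ORD) (hAFX : s_AFX) (hAIN : s_AIN)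
    (hAFI : s_AFI) : s_PHI := by
  intro A _ _ G hG g hg
  have hg0 : ¬ IsOfFinOrder (g : Equiv.Perm (Stream' A)) := fun h =>
    hg ((Submonoid.isOfFinOrder_coe (H := G.toSubmonoid) (x := g)).1 h)
  have hgV : IsV (g : Equiv.Perm (Stream' A)) := hG g g.2
  obtain ⟨h, hh, q, τ, z, hq, hz, hr⟩ : ∃ h : Equiv.Perm (Stream' A),
      (h = (g : Equiv.Perm (Stream' A)) ∨ h = (g : Equiv.Perm (Stream' A))⁻¹) ∧
      ∃ (q : ℕ) (τ z : List A), 0 < q ∧ z ≠ [] ∧ Rep (h ^ q) τ (τ ++ z) := by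
    obtain ⟨q, τ, z, hq, hz, hr | hr⟩ := hORD A (g : Equiv.Perm (Stream' A)) hgV hg0
    · exact ⟨_, Or.inl rfl, q, τ, z, hq, hz, hr⟩
    · exact ⟨_, Or.inr rfl, q, τ, z, hq, hz, hr⟩
  have hhV : IsV h := by
    rcases hh with rfl | rfl
    · exact hgV
    · exact (hGRP A).2.2 _ hgV
  obtain ⟨a, -, ha1, ha2, -⟩ := hAFX A (h ^ q) τ z hz hr
  have haA : AttP h a := ⟨q, hq, ha1, ha2⟩
  have hcomm : ∀ f : Equiv.Perm (Stream' A),
      f * (g : Equiv.Perm (Stream' A)) = (g : Equiv.Perm (Stream' A)) * f → f * h = h * f := by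
    intro f hf
    rcases hh with rfl | rfl
    · exact hf
    · exact (Commute.inv_right hf : Commute f _)
  obtain ⟨Φ, hΦ⟩ : ∃ Φ : Finset (Stream' A), ∀ x, x ∈ Φ ↔ AttP h x :=
    ⟨(hAFI A h hhV).toFinset, fun x => Set.Finite.mem_toFinset _⟩
  have hmap : ∀ f : Equiv.Perm (Stream' A), IsV f →
      f * (g : Equiv.Perm (Stream' A)) = (g : Equiv.Perm (Stream' A)) * f →
      ∀ x ∈ Φ, f x ∈ Φ := fun f hf hfg x hx =>
    (hΦ _).2 ((hAIN A h hhV).1 f x hf (hcomm f hfg) ((hΦ x).1 hx))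
  have hgc : ∀ f : Subgroup.centralizer {g}, ((f : G) : Equiv.Perm (Stream' A)) *
      (g : Equiv.Perm (Stream' A)) = (g : Equiv.Perm (Stream' A)) *
      ((f : G) : Equiv.Perm (Stream' A)) := by
    intro f
    have h1 := Subgroup.mem_centralizer_singleton_iff.1 f.2
    have h2 := congrArg (Subtype.val : G → Equiv.Perm (Stream' A)) h1
    exact h2
  have hpos : 0 < ∑ x ∈ Φ, ex h x := by
    refine pos hGRP hEXP hhV (fun x hx => ?_) (fun x hx => (hΦ x).1 hx) ⟨a, (hΦ a).2 haA⟩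
    exact (hΦ _).2 ((hAIN A h hhV).1 h x hhV rfl ((hΦ x).1 hx))
  have hS : ∑ x ∈ Φ, ex (g : Equiv.Perm (Stream' A)) x ≠ 0 := by
    rcases hh with rfl | rfl
    · exact hpos.ne'
    · intro h0
      have h1 := sum_mul hEXP (Φ := Φ) hhV hgV (hmap _ hgV rfl)
      rw [inv_mul_cancel, h0, add_zero] at h1
      rw [← h1, Finset.sum_eq_zero fun x _ => (hEXP A).2.2.1 x] at hpos
      exact lt_irrefl _ hpos
  let φ : Subgroup.centralizer {g} →* Multiplicative ℤ :=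
    { toFun := fun f => Multiplicative.ofAdd
        (∑ x ∈ Φ, ex ((f : G) : Equiv.Perm (Stream' A)) x)
      map_one' := by
        have h1 : ∑ x ∈ Φ, ex (1 : Equiv.Perm (Stream' A)) x = 0 :=
          Finset.sum_eq_zero fun x _ => (hEXP A).2.2.1 x
        exact congrArg Multiplicative.ofAdd h1
      map_mul' := fun f f' => by
        have h1 := sum_mul hEXP (Φ := Φ) (hG _ (f : G).2) (hG _ (f' : G).2)
          (hmap _ (hG _ (f' : G).2) (hgc f'))
        exact congrArg Multiplicative.ofAdd h1 }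
  refine ⟨φ, fun h1 => hS ?_⟩
  exact Multiplicative.ofAdd.injective h1

end Pool.Agent.THV
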