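import Pool.Agent.THV.St

/-!
# Module REB: basic facts on words
-/

set_option autoImplicit false

namespace Pool.Agent.THV.REB

open Stream' Pool.Agent.THV

variable {A : Type}

theorem rep_append {g : Equiv.Perm (Stream' A)} {u v : List A} (h : Rep g u v) (w : List A) :
    Rep g (u ++ w) (v ++ w) := by
  intro y
  rw [append_append_stream, append_append_stream]
  exact h (w ++ₛ y)

theorem rep_mul {g h : Equiv.Perm (Stream' A)} {u v w : List A} (h1 : Rep g u v) (h2 : Rep h v w) :
    Rep (h * g) u w := by
  intro y
  rw [Equiv.Perm.mul_apply, h1 y, h2 y]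

theorem rep_inv {g : Equiv.Perm (Stream' A)} {u v : List A} (h : Rep g u v) : Rep g⁻¹ v u := by
  intro y
  rw [Equiv.Perm.inv_eq_iff_eq, h y]

theorem aux_le [Nontrivial A] {v v' : List A} (hl : v.length ≤ v'.length)
    (h : ∀ y : Stream' A, v ++ₛ y = v' ++ₛ y) : v = v' := by
  have e : v' = v'.take v.length ++ v'.drop v.length := (List.take_append_drop _ _).symm
  have h1 : ∀ y : Stream' A, v ++ₛ y = v'.take v.length ++ₛ (v'.drop v.length ++ₛ y) := by
    intro y
    rw [← append_append_stream, ← e]
    exact h y
  have h2 : ∀ y : Stream' A, v = v'.take v.length := fun y =>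
    append_left_injective _ _ _ _ (h1 y) (by rw [List.length_take, min_eq_left hl])
  obtain ⟨a, b, hab⟩ := exists_pair_ne A
  have h3 : v = v'.take v.length := h2 (Stream'.const a)
  have h4 : ∀ y : Stream' A, y = v'.drop v.length ++ₛ y := by
    intro y
    have := h1 y
    rw [← h3] at this
    exact append_right_injective _ _ _ this
  have h5 : v'.drop v.length = [] := by
    cases hd : v'.drop v.length with
    | nil => rfl
    | cons c t =>
      exfalso
      have ha : (Stream'.const a).get 0 = c := by
        rw [h4 (Stream'.const a), hd]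
        rfl
      have hb : (Stream'.const b).get 0 = c := by
        rw [h4 (Stream'.const b), hd]
        rfl
      rw [Stream'.get_const] at ha hb
      exact hab (ha.trans hb.symm)
  rw [e, h5, List.append_nil]
  exact h3

theorem rep_unique [Nontrivial A] {g : Equiv.Perm (Stream' A)} {u v v' : List A} (h : Rep g u v)
    (h' : Rep g u v') : v = v' := by
  have hy : ∀ y : Stream' A, v ++ₛ y = v' ++ₛ y := fun y => (h y).symm.trans (h' y)
  rcases le_total v.length v'.length with hl | hl
  · exact aux_le hl hy
  · exact (aux_le hl fun y => (hy y).symm).symm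

end Pool.Agent.THV.REB

namespace Pool.Agent.THV

open Pool.Agent.THV.REB

theorem t_REB : s_REB := by
  intro A _ g h
  refine ⟨fun u v w h1 => rep_append h1 w, fun u v w h1 h2 => rep_mul h1 h2,
    fun u v h1 => rep_inv h1, fun u v v' h1 h2 => rep_unique h1 h2,
    fun u u' v h1 h2 => rep_unique (rep_inv h1) (rep_inv h2), fun u y => rfl, ?_, ?_, ?_, ?_, ?_⟩
  · intro u v w u' h1 h2
    exact rep_unique (rep_inv h2) (rep_inv (rep_append h1 w))
  · intro u v w v' h1 h2
    exact rep_unique h2 (rep_append h1 w)
  · intro j k u v w h1 h2 y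
    rw [← h1 y, ← Equiv.Perm.mul_apply, ← pow_add, add_comm k j]
    exact h2 y
  · intro k l u w hkl h1 h2 y
    have h3 : (g ^ k) ((g ^ (l - k)) (u ++ₛ y)) = (g ^ k) (u ++ₛ y) := by
      rw [← Equiv.Perm.mul_apply, ← pow_add, Nat.add_sub_cancel' hkl, h2 y, h1 y]
    exact (g ^ k).injective h3
  · intro u v w h1 h2 y
    rw [← h1 y]
    exact h2 y

end Pool.Agent.THV
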