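import Pool.Agent.THV.St

/-!
# TV, module ZIN: invariance of the periodic points
-/

set_option autoImplicit false

namespace Pool.Agent.THV

open Stream'

namespace ZIN

variable {A : Type}

theorem take_append_len (v : List A) (y : Stream' A) : (v ++ₛ y).take v.length = v := by
  induction v with
  | nil => rfl
  | cons a v ih =>
    rw [List.length_cons, cons_append_stream, take_succ_cons, ih]

/-- The image of a point under a conjugate. -/
theorem conj [Nontrivial A] (hREB : s_REB) (hDOM : s_DOM) (g h : Equiv.Perm (Stream' A))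
    (x : Stream' A) (hh : IsV h) (hx : PerP g x) : PerP (h * g * h⁻¹) (h x) := by
  obtain ⟨m, hm, n, hrep⟩ := hx
  obtain ⟨-, hd, -⟩ := hDOM A h hh
  obtain ⟨n₁, hn₁⟩ := hd x
  obtain ⟨v, hv⟩ := hn₁ (max n n₁) (le_max_right _ _)
  obtain ⟨r1, -⟩ := hREB A (g ^ m) h
  obtain ⟨-, -, r3, -⟩ := hREB A h h
  obtain ⟨-, r2, -⟩ := hREB A h⁻¹ (g ^ m)
  obtain ⟨-, r2', -⟩ := hREB A (g ^ m * h⁻¹) h
  have h1 : x.take (max n n₁) = x.take n ++ (x.drop n).take (max n n₁ - n) := by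
    have h2 : max n n₁ = n + (max n n₁ - n) := by omega
    conv_lhs => rw [h2]
    exact Stream'.take_add _ _ _
  have h2 : Rep (g ^ m) (x.take (max n n₁)) (x.take (max n n₁)) := by
    have h3 := r1 _ _ ((x.drop n).take (max n n₁ - n)) hrep
    rw [← h1] at h3
    exact h3
  have h3 : Rep h⁻¹ v (x.take (max n n₁)) := r3 _ _ hv
  have h4 : Rep (h * (g ^ m * h⁻¹)) v v := r2' _ _ _ (r2 _ _ _ h3 h2) hv
  have h5 : (h * g * h⁻¹) ^ m = h * (g ^ m * h⁻¹) := by
    rw [conj_pow, mul_assoc]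
  have h6 : h x = v ++ₛ x.drop (max n n₁) := by
    have h7 := hv (x.drop (max n n₁))
    rwa [append_take_drop] at h7
  refine ⟨m, hm, v.length, ?_⟩
  rw [h5, h6, take_append_len]
  exact h4

theorem pow_rep [Nontrivial A] (hREB : s_REB) (g : Equiv.Perm (Stream' A)) (u : List A)
    (h : Rep g u u) (n : ℕ) : Rep (g ^ n) u u := by
  induction n with
  | zero =>
    obtain ⟨-, -, -, -, -, r6, -⟩ := hREB A g g
    rw [pow_zero]
    exact r6 u
  | succ n ih =>
    obtain ⟨-, r2, -⟩ := hREB A g (g ^ n)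
    rw [pow_succ]
    exact r2 _ _ _ h ih

end ZIN

theorem t_ZIN (hREB : s_REB) (hDOM : s_DOM) (hGRP : s_GRP) : s_ZIN := by
  intro A _ g _
  refine ⟨fun h x hh => ⟨fun hx => ?_, fun hx => ZIN.conj hREB hDOM g h x hh hx⟩,
    fun n x hn => ⟨fun hx => ?_, fun hx => ?_⟩⟩
  · have h1 := ZIN.conj hREB hDOM (h * g * h⁻¹) h⁻¹ (h x) ((hGRP A).2.2 h hh) hx
    have h2 : h⁻¹ * (h * g * h⁻¹) * h⁻¹⁻¹ = g := by group
    have h3 : h⁻¹ (h x) = x := h.symm_apply_apply x
    rw [h2, h3] at h1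
    exact h1
  · obtain ⟨m, hm, k, h⟩ := hx
    refine ⟨n * m, Nat.mul_pos hn hm, k, ?_⟩
    rw [pow_mul]
    exact h
  · obtain ⟨m, hm, k, h⟩ := hx
    refine ⟨m, hm, k, ?_⟩
    rw [← pow_mul, mul_comm, pow_mul]
    exact ZIN.pow_rep hREB _ _ h n

end Pool.Agent.THV
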