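import Pool.Agent.THV.St

/-!
# TV: a uniform period (module ZUN, MP_e40716_gt, helper54)
-/

set_option autoImplicit false

namespace Pool.Agent.THV

open Stream'

namespace ZUN

variable {A : Type}

theorem rep_mul {g h : Equiv.Perm (Stream' A)} {u v w : List A} (h1 : Rep g u v)
    (h2 : Rep h v w) : Rep (h * g) u w := by
  intro y
  rw [Equiv.Perm.mul_apply, h1, h2]

theorem rep_app {g : Equiv.Perm (Stream' A)} {u v : List A} (h : Rep g u v) (w : List A) :
    Rep g (u ++ w) (v ++ w) := by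
  intro y
  rw [append_append_stream, append_append_stream, h]

theorem rep_pow {g : Equiv.Perm (Stream' A)} {u : List A} (h : Rep g u u) (k : ℕ) :
    Rep (g ^ k) u u := by
  induction k with
  | zero => intro y; rfl
  | succ k ih =>
    rw [pow_succ']
    exact rep_mul ih h

/-- powers of elements of the group -/
theorem isV_pow (hGRP : s_GRP) {g : Equiv.Perm (Stream' A)} (hg : IsV g) (k : ℕ) :
    IsV (g ^ k) := by
  induction k with
  | zero =>
    rw [pow_zero]
    exact (hGRP A).1
  | succ k ih =>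
    rw [pow_succ]
    exact (hGRP A).2.1 _ _ ih hg

/-- periodic words -/
def Pd (g : Equiv.Perm (Stream' A)) (u : List A) : Prop :=
  RC g u ∧ ∃ m : ℕ, 0 < m ∧ Rep (g ^ m) u u

theorem take_split (x : Stream' A) {n k : ℕ} (h : n ≤ k) :
    x.take k = x.take n ++ (x.take k).drop n := by
  have h1 : x.take n = (x.take k).take n := by
    rw [Stream'.take_take, min_eq_right h]
  rw [h1, List.take_append_drop]

/-- if finitely many powers are defined and one of them fixes the word, all powers are defined -/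
theorem rc_of {g : Equiv.Perm (Stream' A)} {u : List A} {m : ℕ} (hm : 0 < m)
    (h : Rep (g ^ m) u u) (hd : ∀ i < m, ∃ v, Rep (g ^ i) u v) : RC g u := by
  intro k
  obtain ⟨v, hv⟩ := hd (k % m) (Nat.mod_lt _ hm)
  refine ⟨v, ?_⟩
  have h1 : g ^ k = g ^ (k % m) * (g ^ m) ^ (k / m) := by
    rw [← pow_mul, ← pow_add, Nat.mod_add_div]
  rw [h1]
  exact rep_mul (rep_pow h _) hv

/-- (a) some initial word is periodic -/
theorem ex_pd [Nontrivial A] (hDOM : s_DOM) (hGRP : s_GRP) {g : Equiv.Perm (Stream' A)}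
    (hg : IsV g) {x : Stream' A} (hx : PerP g x) : ∃ n, Pd g (x.take n) := by
  obtain ⟨m, hm, n₀, h0⟩ := hx
  have h1 : ∀ i : ℕ, ∃ n, ∀ k, n ≤ k → ∃ v, Rep (g ^ i) (x.take k) v := fun i =>
    (hDOM A (g ^ i) (isV_pow hGRP hg i)).2.1 x
  choose N hN using h1
  obtain ⟨n, hn0, hn⟩ : ∃ n, n₀ ≤ n ∧ ∀ i < m, N i ≤ n := by
    refine ⟨n₀ + (Finset.range m).sup N, Nat.le_add_right _ _, fun i hi => ?_⟩
    exact (Finset.le_sup (Finset.mem_range.2 hi)).trans (Nat.le_add_left _ _)
  have h2 : Rep (g ^ m) (x.take n) (x.take n) := by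
    rw [take_split x hn0]
    exact rep_app h0 _
  exact ⟨n, rc_of hm h2 fun i hi => hN i n (hn i hi), m, hm, h2⟩

/-- (b) the orbit of the shortest periodic initial word contains a short word -/
theorem ex_short [Nontrivial A] (hREB : s_REB) (hDOM : s_DOM) (hGRP : s_GRP) (hRCL : s_RCL)
    {g : Equiv.Perm (Stream' A)} (hg : IsV g) {L : ℕ}
    (hL : ∀ u : List A, L ≤ u.length → ∃ v, Rep g u v) {x : Stream' A} (hx : PerP g x) :
    ∃ (i : ℕ) (w : List A), Pd g w ∧ w.length ≤ L ∧ ∃ y, (g ^ i) x = w ++ₛ y := by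
  classical
  have hex := ex_pd hDOM hGRP hg hx
  obtain ⟨n, hn, hmin⟩ : ∃ n, Pd g (x.take n) ∧ ∀ k < n, ¬ Pd g (x.take k) :=
    ⟨Nat.find hex, Nat.find_spec hex, fun k hk => Nat.find_min hex hk⟩
  obtain ⟨hRC, m, hm, hper⟩ := hn
  obtain ⟨f, f0, f1, f2⟩ := (hRCL A g).2.2.2.1 _ hRC
  have uniq : ∀ (g' : Equiv.Perm (Stream' A)) (u v v' : List A), Rep g' u v → Rep g' u v' →
      v = v' := fun g' => (hREB A g' g').2.2.2.1
  have fm : f m = x.take n := uniq _ _ _ _ (f1 m) hper
  have fper : ∀ k, f (k + m) = f k := by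
    intro k
    have h1 := f2 m k
    rw [fm] at h1
    rw [add_comm]
    exact uniq _ _ _ _ h1 (f1 k)
  -- all words of the orbit are periodic
  have fpd : ∀ i, Pd g (f i) := by
    intro i
    refine ⟨fun k => ⟨f (i + k), f2 i k⟩, m, hm, ?_⟩
    have h1 := f2 i m
    rw [fper] at h1
    exact h1
  by_contra hcon
  have hlong : ∀ i, L < (f i).length := by
    intro i
    by_contra hi
    apply hcon
    refine ⟨i, f i, fpd i, not_lt.1 hi, x.drop n, ?_⟩
    have h1 := f1 i (x.drop n)
    rw [Stream'.append_take_drop] at h1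
    exact h1
  -- the shortened words
  have hne : ∀ i, f i ≠ [] := by
    intro i h
    have := hlong i
    rw [h, List.length_nil] at this
    exact Nat.not_lt_zero _ this
  have hr : ∀ i, Rep g (f i).dropLast (f (i + 1)).dropLast := by
    intro i
    have hlen : L ≤ (f i).dropLast.length := by
      rw [List.length_dropLast]
      have := hlong i
      omega
    obtain ⟨v, hv⟩ := hL _ hlen
    have h1 : Rep g (f i) (f (i + 1)) := by
      have := f2 i 1
      rwa [pow_one] at this
    have h2 : f i = (f i).dropLast ++ [(f i).getLast (hne i)] :=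
      (List.dropLast_append_getLast (hne i)).symm
    have h3 : Rep g ((f i).dropLast ++ [(f i).getLast (hne i)]) (f (i + 1)) := by
      rw [← h2]
      exact h1
    have h4 : f (i + 1) = v ++ [(f i).getLast (hne i)] :=
      (hREB A g g).2.2.2.2.2.2.2.1 _ _ _ _ hv h3
    rw [h4, List.dropLast_concat]
    exact hv
  have hRC' : RC g (f 0).dropLast := (hRCL A g).2.2.2.2.1 (fun i => (f i).dropLast) hr
  have hpow : ∀ k, Rep (g ^ k) (f 0).dropLast (f k).dropLast := by
    intro k
    induction k with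
    | zero => intro y; rfl
    | succ k ih =>
      rw [pow_succ']
      exact rep_mul ih (hr k)
  have hPd : Pd g (f 0).dropLast := by
    refine ⟨hRC', m, hm, ?_⟩
    have h1 := hpow m
    have h2 := fper 0
    rw [zero_add] at h2
    rw [h2] at h1
    exact h1
  have hlen0 : L < n := by
    have := hlong 0
    rw [f0, Stream'.length_take] at this
    exact this
  have hd : (f 0).dropLast = x.take (n - 1) := by
    rw [f0, List.dropLast_eq_take, Stream'.length_take, Stream'.take_take,
      min_eq_right (Nat.sub_le n 1)]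
  rw [hd] at hPd
  exact hmin (n - 1) (by omega) hPd

end ZUN

open ZUN in
theorem t_ZUN (hREB : s_REB) (hDOM : s_DOM) (hGRP : s_GRP) (hRCL : s_RCL) : s_ZUN := by
  classical
  intro A _ _ g hg
  obtain ⟨L, hL⟩ := (hDOM A g hg).1
  have hfin : {w : List A | w.length ≤ L}.Finite := List.finite_length_le A L
  have hch : ∀ w : List A, ∃ m : ℕ, 0 < m ∧ (Pd g w → Rep (g ^ m) w w) := by
    intro w
    by_cases h : Pd g w
    · obtain ⟨m, hm, h1⟩ := h.2
      exact ⟨m, hm, fun _ => h1⟩
    · exact ⟨1, Nat.one_pos, fun h' => absurd h' h⟩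
  choose μ hμ0 hμ using hch
  refine ⟨∏ w ∈ hfin.toFinset, μ w, Finset.prod_pos fun w _ => hμ0 w, fun x hx => ?_⟩
  obtain ⟨i, w, hw, hwL, y, hy⟩ := ex_short hREB hDOM hGRP hRCL hg hL hx
  have hmem : w ∈ hfin.toFinset := hfin.mem_toFinset.2 hwL
  obtain ⟨c, hc⟩ := Finset.dvd_prod_of_mem μ hmem
  have h1 : Rep (g ^ (∏ w ∈ hfin.toFinset, μ w)) w w := by
    rw [hc, pow_mul]
    exact rep_pow (hμ w hw) c
  have h2 : (g ^ (∏ w ∈ hfin.toFinset, μ w)) ((g ^ i) x) = (g ^ i) x := by
    rw [hy, h1 y]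
  rw [← Equiv.Perm.mul_apply, ← pow_add, add_comm, pow_add, Equiv.Perm.mul_apply] at h2
  exact (g ^ i).injective h2

end Pool.Agent.THV
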