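import Pool.Agent.THV.LOC
import Pool.Agent.THV.REB
import Pool.Agent.THV.GRP
import Pool.Agent.THV.DOM
import Pool.Agent.THV.EXP
import Pool.Agent.THV.RCL
import Pool.Agent.THV.ATL
import Pool.Agent.THV.ORD
import Pool.Agent.THV.AFX
import Pool.Agent.THV.AIN
import Pool.Agent.THV.AFI
import Pool.Agent.THV.PHI
import Pool.Agent.THV.ZUN
import Pool.Agent.THV.ZIN
import Pool.Agent.THV.LCP
import Pool.Agent.THV.BAS
import Pool.Agent.THV.GER
import Pool.Agent.THV.RUN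

/-!
# Subgroups of the Higman–Thompson groups: the main theorem
-/

set_option autoImplicit false

namespace Pool.Agent.THV

theorem t_EXP' : s_EXP := t_EXP t_REB t_DOM t_GRP

theorem t_RCL' : s_RCL := t_RCL t_REB

theorem t_ATL' : s_ATL := t_ATL t_REB t_DOM t_RCL'

theorem t_AFX' : s_AFX := t_AFX t_EXP'

theorem t_AIN' : s_AIN := t_AIN t_GRP t_EXP'

theorem t_AFI' : s_AFI := t_AFI t_REB t_DOM t_GRP t_EXP' t_RCL' t_AIN'

theorem t_PHI' : s_PHI :=
  t_PHI t_GRP t_EXP' (t_ORD t_REB t_DOM t_GRP t_RCL' t_ATL') t_AFX' t_AIN' t_AFI'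

theorem t_RUN' : s_RUN :=
  t_RUN t_GRP t_AIN' t_AFI' (t_ZUN t_REB t_DOM t_GRP t_RCL') (t_ZIN t_REB t_DOM t_GRP)
    (t_BAS t_REB t_GRP t_RCL' t_ATL' t_AFX'
      (t_LCP t_REB t_DOM t_GRP t_EXP' t_RCL' t_AFX' t_AIN'))
    (t_GER t_REB t_GRP t_EXP')

/-- all subgroups of the Higman–Thompson groups satisfy the condition `LocT` -/
theorem locT_v : ForV LocT := locT_of t_PHI' t_RUN'

end Pool.Agent.THV
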