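import Pool.Agent.SUR.CondG
import Pool.Agent.SUR.CondF
import Pool.Agent.PPR.FIN
import Pool.Agent.THV.FIN

/-!
# Finite quotients and the Dennis trace see only the finite subgroups in the Whitehead group

The Farrell–Jones conjecture predicts that `Wh G ⊗ ℚ` is generated by the images of the groups `Wh H`,
`H ≤ G` finite, and by a part which comes from the groups `K₋₁(ℤ[H])` and has finite order in `Wh Γ` for all
homomorphisms from `G` to finite groups `Γ`. Three consequences are proved here for all subgroups of `GL_n K`, `K` any field, of the
automorphism groups of finitely generated residually torsion-free nilpotent groups, of the outer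
automorphism groups of finitely generated free groups, of the automorphism groups of irreducible affine
varieties with a fixed point over a field of characteristic `0`, of the group of the piecewise projective
homeomorphisms of the line (for example for all groups of piecewise linear homeomorphisms of an interval)
and of the Higman–Thompson groups (for example for Thompson's groups `F`, `T` and `V`), and more generally
for groups with a condition on the centralisers.

(a) Let `π : G → Γ` be a homomorphism, `Γ` finite, and `x` in `Wh G`. Then a multiple of `π x` comes from the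
finite subgroups of `G`. The same holds for all `Γ` such that a multiple of `π x` comes from the finite
subgroups of `Γ`.

(b) If the elements of finite order of `G` are in finitely many conjugacy classes, then there are one multiple
of `x` and one element `y` which comes from the finite subgroups of `G` which agree, up to torsion, in all
`Wh Γ`, `Γ` finite. So `Wh G ⊗ ℚ` is the sum of what comes from the finite subgroups and of what cannot be seen
in any finite quotient.

(c) The Dennis trace maps `K₁(ℤ[G])` to `HH₁(ℤ[G])`, whose rationalisation is the direct sum over the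
conjugacy classes of `G` of the homology groups `H₁(Z(g); ℚ)` of the centralisers. Only the component at
`g = 1` does not vanish (with a restriction at the elements of finite order). A functional on `HH₁(ℤ[G])` is a
function `F : G → G → ℚ` with `F a (b c) = F (a b) c + F (c a) b` (`IsWtA F`), and its value at the Dennis
trace of the matrix `X` is `pairF F X`, the sum of the `F (X⁻¹ i j, X j i)`, `F` extended bilinearly. It
factors through the component at `g` if `F a b = 0` for all `a`, `b` such that `a b` is not conjugate to `g`.

The proofs use the integral logarithm for large primes `p`, respectively for a prime `p` which divides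
the order of `g`.
-/

set_option autoImplicit false

universe u

namespace Pool.Agent.THV.DegreeReady

open Pool.Agent.WhK (Wh)
open Pool.Agent.SUR (IsWtA pairF LocRep ForGL ForAut ForOut ForDom ForAlg)
open Pool.Agent.PPR (ForPP)
open Pool.Agent.THV (ForV)

/-- the subgroup of `Wh Γ` generated by the images of the Whitehead groups of the finite subgroups of `G` -/
noncomputable def finWh {G Γ : Type u} [Group G] [Group Γ] (π : G →* Γ) : AddSubgroup (Wh Γ) :=
  AddSubgroup.closure
    {y | ∃ (H : Subgroup G) (_ : Finite H) (z : Wh H), y = Wh.map (π.comp H.subtype) z}

/-- what `G` contributes to `Wh Γ`, for all homomorphisms `π : G → Γ`, comes from the finite subgroups of `G`,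
up to multiples, if it comes from the finite subgroups of `Γ` -/
def FromFinite (G : Type u) [Group G] : Prop :=
  ∀ (Γ : Type u) [Group Γ] (π : G →* Γ) (x : Wh G),
    (∃ n : ℕ, 0 < n ∧ n • Wh.map π x ∈ finWh (MonoidHom.id Γ)) →
    ∃ n : ℕ, 0 < n ∧ n • Wh.map π x ∈ finWh π

/-- if the elements of finite order of `G` are in finitely many conjugacy classes, then for every `x` there are
one multiple of `x` and one `y` which comes from the finite subgroups of `G` which agree, up to torsion, in the
Whitehead groups of all finite groups to which `G` maps -/
def OneForAll (G : Type u) [Group G] : Prop :=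
  {K : ConjClasses G | ∃ g : G, IsOfFinOrder g ∧ ConjClasses.mk g = K}.Finite →
  ∀ x : Wh G, ∃ n : ℕ, 0 < n ∧ ∃ y ∈ finWh (MonoidHom.id G),
    ∀ (Γ : Type u) [Group Γ] [Finite Γ] (π : G →* Γ),
      ∃ m : ℕ, 0 < m ∧ m • Wh.map π (n • x - y) = 0

/-- the condition at elements `g` of finite order: the first homology group of the centraliser of `g` is
finitely generated, or there are a prime divisor `p` of the order of `g` and a `D > 0` such that `p` does not
divide the denominators of the numbers `D * F (z⁻¹ g) z`, `z` in the centraliser of `g` -/
def Bdd {G : Type u} [Group G] (F : G → G → ℚ) (g : G) : Prop :=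
  Group.FG (Abelianization (Subgroup.centralizer {g})) ∨
    ∃ p D : ℕ, p.Prime ∧ p ∣ orderOf g ∧ 0 < D ∧
      ∀ z : G, z * g = g * z → ¬p ∣ ((D : ℚ) * F (z⁻¹ * g) z).den

/-- the component at `g` of the Dennis trace vanishes for all `g ≠ 1`, with the condition `Bdd` if `g` has
finite order -/
def TraceZero (G : Type u) [Group G] : Prop :=
  ∀ (g : G) (F : G → G → ℚ), g ≠ 1 → IsWtA F → (∀ a b, ¬IsConj (a * b) g → F a b = 0) →
    (IsOfFinOrder g → Bdd F g) →
    ∀ (n : ℕ) (X : (Matrix (Fin n) (Fin n) (MonoidAlgebra ℤ G))ˣ), pairF F X = 0

/-- the three properties -/
def Seen (G : Type u) [Group G] : Prop := FromFinite G ∧ OneForAll G ∧ TraceZero G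

theorem seen_of_locT (G : Type u) [Group G] (hG : Pool.Agent.THV.LocT G) : Seen G := by
  have h1 := Pool.Agent.SUR.surjW_D G (Pool.Agent.THV.locED_of_locT G hG)
  refine ⟨fun Γ _ π x hx => h1 Γ π x hx, fun hc x => Pool.Agent.SUR.uniform G h1 hc x,
    fun g F hg1 hF hs hb n X => ?_⟩
  have hs' : ∀ a b, F a b ≠ 0 → IsConj (a * b) g := fun a b h => by
    by_contra h1
    exact h (hs a b h1)
  by_cases hg : IsOfFinOrder g
  · exact Pool.Agent.SUR.trace_fin' G F hF g hg1 hs' hg (hb hg) n X
  · exact Pool.Agent.THV.trace_inf_of G hG F hF g hs' hg n X

theorem seen_of (G : Type u) [Group G] (hG : Pool.Agent.SUR.LocU G) : Seen G :=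
  seen_of_locT G (Pool.Agent.THV.locT_of_locU G hG)

/-- **Theorem.**
(1) The properties `FromFinite`, `OneForAll` and `TraceZero` hold for all subgroups of: `GL_n K`, `K` any
field; the automorphism group of `N`, `N` any finitely generated residually torsion-free nilpotent group; the
outer automorphism group of `N`, `N` any finitely generated free group; the group of the automorphisms of `B`
which preserve `ε`, where `ε : B → K` is an augmentation of an algebra of finite type over a field `K` of
characteristic `0` and `B` is a commutative domain or the powers of the kernel of `ε` have the intersection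
`0`; the group of the increasing piecewise projective homeomorphisms of `ℝ`; the Higman–Thompson group of the
permutations of the infinite words over a finite alphabet which are given by finitely many replacements of
initial words (Thompson's group `V` for two letters).
(2) The properties hold for all groups with the property `LocRep`.
(3) If `Γ` is finite, then every element of `Wh Γ` comes from the finite subgroups of `Γ`; so then the
conclusion of `FromFinite` holds for all `x`.
(4) If `G` is torsion free, then what comes from the finite subgroups of `G` has finite order. -/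
theorem result :
    (ForGL.{u} Seen ∧ ForAut.{u} Seen ∧ ForOut.{u} Seen ∧ ForDom.{u} Seen ∧ ForAlg.{u} Seen ∧
      ForPP Seen ∧ ForV Seen) ∧
    (∀ (G : Type u) [Group G], LocRep G → Seen G) ∧
    (∀ (Γ : Type u) [Group Γ] [Finite Γ], finWh (MonoidHom.id Γ) = ⊤) ∧
    ∀ (G Γ : Type u) [Group G] [Group Γ] (π : G →* Γ), (∀ g : G, IsOfFinOrder g → g = 1) →
      ∀ y ∈ finWh π, ∃ n : ℕ, 0 < n ∧ n • y = 0 := by
  refine ⟨⟨fun K _ n G => seen_of G (Pool.Agent.SUR.locU_linear K n G),
    fun N _ hN hR G => seen_of G (Pool.Agent.SUR.locU_aut N hN hR G),
    fun α _ Q _ q hq hker G => seen_of G (Pool.Agent.SUR.locU_out α Q q hq hker G),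
    fun K B _ _ _ _ _ ε hft G hG => seen_of G (Pool.Agent.SUR.locU_alg K B ε hft
      (Pool.Agent.SUR.t_VDOM K B ε hft) G hG),
    fun K B _ _ _ _ ε hft h G hG => seen_of G (Pool.Agent.SUR.locU_alg K B ε hft h G hG),
    fun G hG => seen_of G (Pool.Agent.SUR.locU_of_locRep G (Pool.Agent.PPR.locRep_pp G hG)),
    fun A _ _ G hG => seen_of_locT G (Pool.Agent.THV.locT_v A G hG)⟩,
    fun G _ hG => seen_of G (Pool.Agent.SUR.locU_of_locRep G hG), fun Γ _ _ => ?_,
    Pool.Agent.SUR.t_FINITE.2⟩
  rw [eq_top_iff]
  exact fun y _ => Pool.Agent.SUR.t_FINITE.1 Γ y

end Pool.Agent.THV.DegreeReady
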