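import Pool.Agent.THV.St

/-!
# RUN: for all large primes `p`, `(h x h⁻¹) ^ p = y ^ p` implies `h x h⁻¹ = y`
-/

set_option autoImplicit false

namespace Pool.Agent.THV

namespace RUN

open Stream'

variable {A : Type}

lemma isV_pow (hGRP : s_GRP) (g : Equiv.Perm (Stream' A)) (hg : IsV g) (n : ℕ) : IsV (g ^ n) := by
  induction n with
  | zero => rw [pow_zero]; exact (hGRP A).1
  | succ n ih => rw [pow_succ]; exact (hGRP A).2.1 _ _ ih hg

/-- `x` and `y` agree near the attracting periodic points of `u`, if they commute with `u ^ p` and have the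
same `p`-th power -/
lemma near [Nontrivial A] (hGRP : s_GRP) (hAIN : s_AIN) (hGER : s_GER)
    (x y u : Equiv.Perm (Stream' A)) (hx : IsV x) (hy : IsV y) (hu : IsV u) (p : ℕ) (hp : p.Prime)
    (hxy : x ^ p = y ^ p) (hcx : x * u ^ p = u ^ p * x) (hcy : y * u ^ p = u ^ p * y)
    (Φ : Finset (Stream' A)) (hΦ : ∀ z, z ∈ Φ ↔ AttP u z) (hc : Φ.card < p) :
    ∀ ξ, AttP u ξ → ∃ m, ∀ w : Stream' A, w.take m = ξ.take m → x w = y w := by
  have hup : IsV (u ^ p) := isV_pow hGRP u hu p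
  have key : ∀ z, AttP (u ^ p) z ↔ AttP u z := fun z => (hAIN A u hu).2.2 p z hp.pos
  intro ξ hξ
  refine hGER A x y hx hy p Φ hp hc ?_ hxy ξ ((hΦ ξ).2 hξ)
  intro η hη
  have hη' : AttP (u ^ p) η := (key η).2 ((hΦ η).1 hη)
  exact ⟨(hΦ _).2 ((key _).1 ((hAIN A (u ^ p) hup).1 x η hx hcx hη')),
    (hΦ _).2 ((key _).1 ((hAIN A (u ^ p) hup).1 y η hy hcy hη'))⟩

lemma apply_inv (h : Equiv.Perm (Stream' A)) (w : Stream' A) : h (h⁻¹ w) = w := by
  rw [← Equiv.Perm.mul_apply, mul_inv_cancel, Equiv.Perm.one_apply]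

/-- a multiple of `p` which is `1` modulo `M` -/
lemma bez (p M : ℕ) (hM : 0 < M) (h : Nat.Coprime p M) (hp : 0 < p) :
    ∃ a b : ℕ, p * a = 1 + M * b := by
  rcases Nat.lt_or_ge 1 M with h1 | h1
  · obtain ⟨a, ha⟩ := Nat.exists_mul_mod_eq_one_of_coprime h h1
    refine ⟨a, p * a / M, ?_⟩
    have := Nat.div_add_mod (p * a) M
    omega
  · have : M = 1 := by omega
    subst this
    exact ⟨1, p - 1, by omega⟩

end RUN

theorem t_RUN (hGRP : s_GRP) (hAIN : s_AIN) (hAFI : s_AFI) (hZUN : s_ZUN) (hZIN : s_ZIN)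
    (hBAS : s_BAS) (hGER : s_GER) : s_RUN := by
  intro A _ _ x y hx hy
  obtain ⟨m, hm0, hm⟩ := hZUN A x hx
  obtain ⟨m', hm0', hm'⟩ := hZUN A y hy
  have hyi : IsV y⁻¹ := (hGRP A).2.2 y hy
  have hF1 := hAFI A y hy
  have hF2 := hAFI A y⁻¹ hyi
  refine ⟨m + m' + hF1.toFinset.card + hF2.toFinset.card, ?_⟩
  intro p hp hN h hh hpow
  have hxV : IsV (h * x * h⁻¹) :=
    (hGRP A).2.1 _ _ ((hGRP A).2.1 _ _ hh hx) ((hGRP A).2.2 h hh)
  -- abbreviations
  obtain ⟨x', hx'⟩ : ∃ x', x' = h * x * h⁻¹ := ⟨_, rfl⟩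
  rw [← hx'] at hpow hxV ⊢
  have hv : IsV (y ^ p) := RUN.isV_pow hGRP y hy p
  have hcx : x' * y ^ p = y ^ p * x' := by rw [← hpow]; exact (pow_succ' x' p).symm.trans (pow_succ x' p)
  have hcy : y * y ^ p = y ^ p * y := (pow_succ' y p).symm.trans (pow_succ y p)
  have hvi : y⁻¹ ^ p = (y ^ p)⁻¹ := inv_pow y p
  have hcxi : x' * y⁻¹ ^ p = y⁻¹ ^ p * x' := by
    rw [hvi]; exact (Commute.inv_right (show Commute x' (y ^ p) from hcx))
  have hcyi : y * y⁻¹ ^ p = y⁻¹ ^ p * y := by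
    rw [hvi]; exact (Commute.inv_right (show Commute y (y ^ p) from hcy))
  have n1 := RUN.near hGRP hAIN hGER x' y y hxV hy hy p hp hpow hcx hcy hF1.toFinset
    (fun z => by simp) (by omega)
  have n2 := RUN.near hGRP hAIN hGER x' y y⁻¹ hxV hy hyi p hp hpow hcxi hcyi hF2.toFinset
    (fun z => by simp) (by omega)
  refine Equiv.ext fun w => ?_
  by_cases ha : AttP y w
  · obtain ⟨k, hk⟩ := n1 w ha
    exact hk w rfl
  by_cases hb : PerP y w
  · -- a periodic point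
    have e1 : PerP (y ^ p) w := ((hZIN A y hy).2 p w hp.pos).2 hb
    have e2 : PerP x' w := ((hZIN A x' hxV).2 p w hp.pos).1 (by rw [hpow]; exact e1)
    have e3 : PerP x (h⁻¹ w) := by
      refine ((hZIN A x hx).1 h (h⁻¹ w) hh).1 ?_
      rw [← hx', RUN.apply_inv]
      exact e2
    have f1 : (x' ^ m) w = w := by
      rw [hx', conj_pow, Equiv.Perm.mul_apply, Equiv.Perm.mul_apply, hm _ e3,
        RUN.apply_inv]
    have f2 : (y ^ m') w = w := hm' w hb
    have hcop : Nat.Coprime p (m * m') := by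
      refine (Nat.Prime.coprime_iff_not_dvd hp).2 fun hd => ?_
      rcases (Nat.Prime.dvd_mul hp).1 hd with hd | hd
      · exact absurd (Nat.le_of_dvd hm0 hd) (by omega)
      · exact absurd (Nat.le_of_dvd hm0' hd) (by omega)
    obtain ⟨a, b, hab⟩ := RUN.bez p (m * m') (Nat.mul_pos hm0 hm0') hcop hp.pos
    have g1 : (x' ^ (m * m' * b)) w = w := by
      rw [Nat.mul_assoc, pow_mul]
      exact Equiv.Perm.pow_apply_eq_self_of_apply_eq_self f1 _
    have g2 : (y ^ (m * m' * b)) w = w := by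
      rw [Nat.mul_comm m m', Nat.mul_assoc, pow_mul]
      exact Equiv.Perm.pow_apply_eq_self_of_apply_eq_self f2 _
    calc x' w = x' ((x' ^ (m * m' * b)) w) := by rw [g1]
      _ = (x' ^ (1 + m * m' * b)) w := by
          rw [pow_add, pow_one, Equiv.Perm.mul_apply]
      _ = (y ^ (1 + m * m' * b)) w := by
          rw [← hab, pow_mul, pow_mul, hpow]
      _ = y ((y ^ (m * m' * b)) w) := by
          rw [pow_add, pow_one, Equiv.Perm.mul_apply]
      _ = y w := by rw [g2]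
  · -- the basin of a repelling point
    have ha' : ¬AttP (y ^ p) w := fun hc => ha (((hAIN A y hy).2.2 p w hp.pos).1 hc)
    have hb' : ¬PerP (y ^ p) w := fun hc => hb (((hZIN A y hy).2 p w hp.pos).1 hc)
    obtain ⟨ρ, hρ, hρ'⟩ := hBAS A (y ^ p) hv w hb' ha'
    rw [← hvi] at hρ
    have hρ2 : AttP y⁻¹ ρ := ((hAIN A y⁻¹ hyi).2.2 p ρ hp.pos).1 hρ
    obtain ⟨l, hl⟩ := n2 ρ hρ2
    obtain ⟨k, hk⟩ := hρ' l
    have e := hl _ hk
    rw [← hvi] at e
    have c1 : x' (((y⁻¹ ^ p) ^ k) w) = ((y⁻¹ ^ p) ^ k) (x' w) := by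
      rw [← Equiv.Perm.mul_apply, ← Equiv.Perm.mul_apply]
      rw [(Commute.pow_right (show Commute x' (y⁻¹ ^ p) from hcxi) k).eq]
    have c2 : y (((y⁻¹ ^ p) ^ k) w) = ((y⁻¹ ^ p) ^ k) (y w) := by
      rw [← Equiv.Perm.mul_apply, ← Equiv.Perm.mul_apply]
      rw [(Commute.pow_right (show Commute y (y⁻¹ ^ p) from hcyi) k).eq]
    rw [c1, c2] at e
    exact (Equiv.injective _) e

end Pool.Agent.THV
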